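import Pool.Agent.Semistar.Link
import Pool.Agent.Semistar.Main3
import Pool.Agent.Semistar.Pos

set_option autoImplicit false

/-!
The pair `(3, 8)`: there are exactly two `(3, 8)` RP semistars.
-/

namespace Pool.Agent.Results.MP_33d24b_co.FiniteThreeEight

open Pool.Agent.Semistar

theorem cnt_none {b₀ k : ℕ} (b : Fin k → ℕ) :
    cnt (blk (b₀ := b₀) (b := b)) Finset.univ none = b₀ := by
  unfold cnt
  rw [Finset.card_filter, Fintype.sum_sum_type]
  simp [blk]

theorem cnt_some {b₀ k : ℕ} (b : Fin k → ℕ) (i : Fin k) :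
    cnt (blk (b₀ := b₀) (b := b)) Finset.univ (some i) = b i := by
  unfold cnt
  rw [Finset.card_filter, Fintype.sum_sum_type, Fintype.sum_sigma]
  simp [blk]

theorem isRP_iff {b₀ k : ℕ} (b : Fin k → ℕ) : IsRP (semistar b₀ b) ↔ RL b₀ (List.ofFn b) := by
  rw [IsRP, semistar, rpOn_iff, cnt_none]
  have : lst (blk (b₀ := b₀) (b := b)) Finset.univ = List.ofFn b := by
    unfold lst
    congr 1
    funext i
    exact cnt_some b i
  rw [this]

theorem eq_of_perm {b c : Fin 8 → ℕ} (hb : Monotone b) (hc : Monotone c)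
    (h : (List.ofFn b).Perm (List.ofFn c)) : b = c :=
  List.ofFn_injective (h.eq_of_sortedLE hb.sortedLE_ofFn hc.sortedLE_ofFn)

theorem mono1 : Monotone (![1, 1, 1, 2, 2, 3, 4, 6] : Fin 8 → ℕ) := by decide

theorem mono2 : Monotone (![1, 1, 1, 2, 3, 4, 6, 8] : Fin 8 → ℕ) := by decide

theorem ofFn1 : List.ofFn (![1, 1, 1, 2, 2, 3, 4, 6] : Fin 8 → ℕ) = F1 := by decide

theorem ofFn2 : List.ofFn (![1, 1, 1, 2, 3, 4, 6, 8] : Fin 8 → ℕ) = F2 := by decide

theorem rp38 : rpSemistars 3 8 =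
    {![1, 1, 1, 2, 2, 3, 4, 6], ![1, 1, 1, 2, 3, 4, 6, 8]} := by
  ext b
  simp only [rpSemistars, Set.mem_ofPred_eq, Set.mem_insert_iff, Set.mem_singleton_iff]
  constructor
  · rintro ⟨hm, hpos, hR⟩
    rw [isRP_iff] at hR
    have h1 : ∀ a ∈ List.ofFn b, a ≠ 0 := by
      intro a ha
      rw [List.mem_ofFn] at ha
      obtain ⟨i, rfl⟩ := ha
      have := hpos i
      omega
    rcases main3 h1 (by simp) hR with h | h
    · left
      exact eq_of_perm hm mono1 (by rw [ofFn1]; exact h)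
    · right
      exact eq_of_perm hm mono2 (by rw [ofFn2]; exact h)
  · rintro (rfl | rfl)
    · refine ⟨mono1, by decide, ?_⟩
      rw [isRP_iff, ofFn1]
      exact RL_F1
    · refine ⟨mono2, by decide, ?_⟩
      rw [isRP_iff, ofFn2]
      exact RL_F2

/-- There is a pair `(b₀, k)` of positive integers for which the number of `(b₀, k)` RP semistars
is finite and at least one; indeed there are exactly two `(3, 8)` RP semistars. -/
theorem result :
    (∃ b₀ k : ℕ, 0 < b₀ ∧ 0 < k ∧ (rpSemistars b₀ k).Finite ∧ (rpSemistars b₀ k).Nonempty) ∧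
    rpSemistars 3 8 = {![1, 1, 1, 2, 2, 3, 4, 6], ![1, 1, 1, 2, 3, 4, 6, 8]} := by
  refine ⟨⟨3, 8, by norm_num, by norm_num, ?_, ?_⟩, rp38⟩
  · rw [rp38]; exact Set.toFinite _
  · rw [rp38]; exact ⟨_, Or.inl rfl⟩

end Pool.Agent.Results.MP_33d24b_co.FiniteThreeEight
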